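import Pool.Agent.H8.BIG.Targets

/-! # Row GEN of big_modules: no zero of high order on a generic line -/

set_option autoImplicit false

open MvPolynomial
open Pool.Agent.H12.ZD (pmap v O Res DenseOrbit NoInv)
open Pool.Agent.H18.HIT Pool.Agent.H8.BIG

namespace Pool.Agent.H82.BIG

namespace GEN

variable {N : ℕ} {k : Type} [Field k]

/-- the line as a tuple of polynomials -/
noncomputable def Lp (y : Fin N → k) (i : Fin N) : Polynomial (KF N k) :=
  Polynomial.C (algebraMap k (KF N k) (y i)) +
    Polynomial.C (algebraMap (Po N k) (KF N k) (X i)) * Polynomial.X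

theorem natDegree_Lp (y : Fin N → k) (i : Fin N) : (Lp y i).natDegree ≤ 1 := by
  unfold Lp
  refine (Polynomial.natDegree_add_le _ _).trans (max_le ?_ ?_)
  · rw [Polynomial.natDegree_C]
    exact Nat.zero_le _
  · exact (Polynomial.natDegree_C_mul_le _ _).trans Polynomial.natDegree_X_le

theorem natDegree_aeval (y : Fin N → k) (q : Po N k) :
    (aeval (Lp y) q).natDegree ≤ q.totalDegree := by
  rw [MvPolynomial.aeval_def, MvPolynomial.eval₂_eq]
  refine Polynomial.natDegree_sum_le_of_forall_le _ _ fun d hd => ?_
  rw [Polynomial.algebraMap_apply]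
  refine (Polynomial.natDegree_C_mul_le _ _).trans ?_
  refine (Polynomial.natDegree_prod_le _ _).trans ?_
  have h1 : ∑ i ∈ d.support, ((Lp y i) ^ (d i)).natDegree ≤ ∑ i ∈ d.support, d i := by
    refine Finset.sum_le_sum fun i _ => ?_
    refine Polynomial.natDegree_pow_le.trans ?_
    have := natDegree_Lp y i
    nlinarith
  exact h1.trans (MvPolynomial.le_totalDegree hd)

/-- the inclusion of the polynomials into the power series -/
noncomputable def inc (N : ℕ) (k : Type) [Field k] :
    Polynomial (KF N k) →ₐ[k] PowerSeries (KF N k) :=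
  (Polynomial.coeToPowerSeries.algHom (R := KF N k) (KF N k)).restrictScalars k

theorem inc_apply (p : Polynomial (KF N k)) : inc N k p = (p : PowerSeries (KF N k)) := by
  unfold inc
  rw [AlgHom.restrictScalars_apply, Polynomial.coeToPowerSeries.algHom_apply]
  simp

theorem coe_Lp (y : Fin N → k) (i : Fin N) : inc N k (Lp y i) = line y i := by
  rw [inc_apply]
  unfold Lp line
  rw [Polynomial.coe_add, Polynomial.coe_mul, Polynomial.coe_C, Polynomial.coe_C,
    Polynomial.coe_X]

end GEN

open GEN in
theorem pf_GEN : T_GEN := by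
  intro N k _ y q E hE hdvd
  have h1 : inc N k (aeval (Lp y) q) = aeval (line y) q := by
    rw [MvPolynomial.comp_aeval_apply]
    congr 1
    exact congrArg _ (funext fun i => coe_Lp y i)
  have h2 : aeval (Lp y) q = 0 := by
    have hdeg := natDegree_aeval y q
    rw [← h1, inc_apply, PowerSeries.X_pow_dvd_iff] at hdvd
    ext n
    rw [Polynomial.coeff_zero]
    by_cases hn : n < E
    · have := hdvd n hn
      rwa [Polynomial.coeff_coe] at this
    · exact Polynomial.coeff_eq_zero_of_natDegree_lt (by omega)
  have h3 : aeval (fun i => algebraMap (Po N k) (KF N k) (C (y i) + X i)) q = 0 := by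
    have := congrArg ((Polynomial.aeval (R := KF N k) (1 : KF N k)).restrictScalars k) h2
    rw [MvPolynomial.comp_aeval_apply, map_zero] at this
    rw [← this]
    congr 1
    refine congrArg _ (funext fun i => ?_)
    rw [AlgHom.restrictScalars_apply]
    unfold Lp
    rw [map_add, map_add (Polynomial.aeval (1 : KF N k)), map_mul (Polynomial.aeval (1 : KF N k)),
      Polynomial.aeval_C, Polynomial.aeval_C, Polynomial.aeval_X, mul_one]
    rw [Algebra.algebraMap_self, RingHom.id_apply, RingHom.id_apply]
    congr 1
  have h4 : aeval (fun i => (C (y i) + X i : Po N k)) q = 0 := by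
    apply IsFractionRing.injective (Po N k) (KF N k)
    rw [map_zero, ← h3]
    exact (MvPolynomial.comp_aeval_apply (φ := IsScalarTower.toAlgHom k (Po N k) (KF N k))
      (fun i => (C (y i) + X i : Po N k)) q)
  have h5 := congrArg (aeval (fun i => (X i - C (y i) : Po N k))) h4
  rw [MvPolynomial.comp_aeval_apply, map_zero] at h5
  rw [← h5]
  have h6 : (fun i => (aeval (fun i => (X i - C (y i) : Po N k))) (C (y i) + X i : Po N k)) =
      fun i => X i := by
    funext i
    rw [map_add, aeval_X, ← MvPolynomial.algebraMap_eq, AlgHom.commutes]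
    ring
  rw [h6]
  exact (MvPolynomial.aeval_X_left_apply q).symm

end Pool.Agent.H82.BIG
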